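import Pool.Agent.Helper73.SY.Stmts
import Pool.Agent.Helper96.LR.Aff
import Pool.Agent.Helper65.LR.Rh
import Pool.Agent.Helper65.LR.Lev

/-!
# Module CEN of MP_a2630c_SY: centred translate of a solution
-/

open MeasureTheory Set Metric Real
open scoped RealInnerProductSpace ENNReal
open Pool.Agent.Helper16.Buoy (E cap)
open Pool.Agent.Helper73.HV (supp)
open Pool.Agent.Helper73.LR (CB vol GG aff Sol)
open Pool.Agent.Helper96.LR (cap_aff GG_aff volume_aff supp_aff cb_aff ad ad_inner vol_aff vol_pos)
open Pool.Agent.Helper65.LR (GG_add GG_min cap_int le_supp supp_greatest supp_smul)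
open Pool.Agent.Helper51.HV (hyper_null cap_subset cap_meas)
open Pool.Agent.Helper73.SY

namespace Pool.Agent.Helper94.SY

variable {n : ℕ} {K : Set (E n)}

/-! ### the symmetry `iot` -/

theorem iot_inner {p q : E n} (_h : ON p q) (u x : E n) :
    inner ℝ (iot p q u) x = (inner ℝ u (iot p q x) : ℝ) := by
  unfold iot
  rw [inner_sub_left, inner_sub_left, real_inner_smul_left, real_inner_smul_left,
    inner_sub_right, inner_sub_right, real_inner_smul_right, real_inner_smul_right,
    real_inner_comm u p, real_inner_comm u q]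
  ring

theorem iot_iot {p q : E n} (h : ON p q) (x : E n) : iot p q (iot p q x) = x := by
  have e1 : (inner ℝ p p : ℝ) = 1 := by rw [real_inner_self_eq_norm_sq, h.p1]; norm_num
  have e2 : (inner ℝ q q : ℝ) = 1 := by rw [real_inner_self_eq_norm_sq, h.q1]; norm_num
  have e3 : (inner ℝ q p : ℝ) = 0 := by rw [real_inner_comm]; exact h.pq
  have h1 : (inner ℝ p (iot p q x) : ℝ) = - inner ℝ p x := by
    unfold iot
    rw [inner_sub_right, inner_sub_right, real_inner_smul_right, real_inner_smul_right, e1, h.pq]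
    ring
  have h2 : (inner ℝ q (iot p q x) : ℝ) = - inner ℝ q x := by
    unfold iot
    rw [inner_sub_right, inner_sub_right, real_inner_smul_right, real_inner_smul_right, e2, e3]
    ring
  have h3 : iot p q (iot p q x) = iot p q x - (2 * inner ℝ p (iot p q x)) • p
      - (2 * inner ℝ q (iot p q x)) • q := rfl
  rw [h3, h1, h2]
  unfold iot
  module

theorem iot_norm {p q : E n} (h : ON p q) (x : E n) : ‖iot p q x‖ = ‖x‖ := by
  have h1 : (inner ℝ (iot p q x) (iot p q x) : ℝ) = inner ℝ x x := by
    rw [iot_inner h, iot_iot h]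
  rw [real_inner_self_eq_norm_sq, real_inner_self_eq_norm_sq] at h1
  exact (pow_left_inj₀ (norm_nonneg _) (norm_nonneg _) two_ne_zero).1 h1

/-- `iot` as a linear map -/
noncomputable def iotL (p q : E n) : E n →ₗ[ℝ] E n where
  toFun := iot p q
  map_add' x y := by
    unfold iot
    rw [inner_add_right, inner_add_right]
    module
  map_smul' c x := by
    unfold iot
    rw [real_inner_smul_right, real_inner_smul_right, RingHom.id_apply]
    module

/-- `iot` as an isometry -/
noncomputable def iotI {p q : E n} (h : ON p q) : E n ≃ₗᵢ[ℝ] E n where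
  toLinearEquiv := LinearEquiv.ofInvolutive (iotL p q) (fun x => iot_iot h x)
  norm_map' x := iot_norm h x

theorem iotI_apply {p q : E n} (h : ON p q) (x : E n) : iotI h x = iot p q x := rfl

theorem int_iot {p q : E n} (h : ON p q) (hK : iot p q '' K = K) (g : E n → ℝ) :
    ∫ x in K, g (iot p q x) = ∫ x in K, g x := by
  have h1 := (iotI h).measurePreserving.setIntegral_image_emb
    (iotI h).toHomeomorph.measurableEmbedding g K
  have h2 : (iotI h) '' K = K := hK
  rw [h2] at h1
  exact h1.symm

theorem GG_iot {p q : E n} (h : ON p q) (hK : iot p q '' K = K) (u : E n) (τ : ℝ) :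
    GG K (iot p q u) τ = GG K u τ := by
  unfold GG
  rw [← int_iot h hK (fun x => max (inner ℝ u x - τ) 0)]
  congr 1
  funext x
  rw [iot_inner h]

theorem supp_iot {p q : E n} (h : ON p q) (hK : iot p q '' K = K) (u : E n) :
    supp K (iot p q u) = supp K u := by
  unfold supp
  congr 1
  conv_rhs => rw [← hK]
  rw [image_image]
  apply image_congr
  intro x _
  rw [iot_inner h]

/-! ### the main statement -/

theorem cap_int_lt (hK : IsCompact K) {u : E n} (hu : u ≠ 0) {τ d : ℝ}
    (hd : 0 < d) (hv : volume (cap K u τ) = ENNReal.ofReal d) :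
    ∫ x in cap K u τ, (inner ℝ u x : ℝ) < d * supp K u := by
  have h1 : ∫ x in cap K u τ, (supp K u - inner ℝ u x : ℝ) =
      d * supp K u - ∫ x in cap K u τ, (inner ℝ u x : ℝ) := by
    rw [integral_sub (cap_int hK u τ (by fun_prop)) (cap_int hK u τ (by fun_prop)),
      setIntegral_const, measureReal_def, hv, ENNReal.toReal_ofReal hd.le, smul_eq_mul]
  have h2 : 0 < ∫ x in cap K u τ, (supp K u - inner ℝ u x : ℝ) := by
    rw [integral_pos_iff_support_of_nonneg_ae]
    · have h3 : cap K u τ ∩ Function.support (fun x : E n => (supp K u - inner ℝ u x : ℝ)) =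
          cap K u τ \ {x : E n | inner ℝ u x = supp K u} := by
        ext x
        simp only [mem_inter_iff, Function.mem_support, mem_sdiff, mem_ofPred_eq]
        constructor
        · rintro ⟨a, b⟩
          exact ⟨a, fun e => b (by rw [e, sub_self])⟩
        · rintro ⟨a, b⟩
          exact ⟨a, fun e => b (sub_eq_zero.1 e).symm⟩
      rw [Measure.restrict_apply', inter_comm, h3, measure_sdiff_null (hyper_null hu _), hv]
      · exact ENNReal.ofReal_pos.2 hd
      · exact cap_meas hK u τ
    · rw [Filter.EventuallyLE, ae_restrict_iff' (cap_meas hK u τ)]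
      exact Filter.Eventually.of_forall fun x hx => sub_nonneg.2 (le_supp hK hx.1 u)
    · exact cap_int hK u τ (by fun_prop)
  linarith

theorem center : S_center := by
  intro n K d hn hK hd hdv hS
  obtain ⟨c, b, hc, h⟩ := hS
  have hne : K.Nonempty := hK.int.mono interior_subset
  -- the factor is less than one
  have hlt : ∀ u : E n, ‖u‖ = 1 → c * supp K u + inner ℝ b u < supp K u := by
    intro u hu
    have hu0 : u ≠ 0 := fun h0 => by rw [h0, norm_zero] at hu; exact zero_ne_one hu
    obtain ⟨τ, h1, h2⟩ := h u hu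
    rw [GG_add hK.comp u τ hd.le h1] at h2
    have h3 := cap_int_lt hK.comp hu0 hd h1
    rw [h2] at h3
    exact lt_of_mul_lt_mul_left h3 hd.le
  have hc1 : c < 1 := by
    have : Nonempty (Fin n) := ⟨⟨0, hn⟩⟩
    obtain ⟨u, hu⟩ := exists_norm_eq (E n) zero_le_one
    have h1 := hlt u hu
    have h2 := hlt (-u) (by rw [norm_neg]; exact hu)
    rw [inner_neg_right] at h2
    obtain ⟨x, hx⟩ := hne
    have h3 := le_supp hK.comp hx u
    have h4 := le_supp hK.comp hx (-u)
    rw [inner_neg_left] at h4
    have h5 : 0 ≤ supp K u + supp K (-u) := by linarith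
    by_contra hcc
    have h6 : 1 ≤ c := not_lt.1 hcc
    nlinarith
  have hc2 : 0 < 1 - c := by linarith
  set C : E n := (-(1 - c)⁻¹) • b with hC
  have hbC : ∀ u : E n, (inner ℝ b u : ℝ) = -(1 - c) * inner ℝ u C := by
    intro u
    rw [hC, real_inner_smul_right, real_inner_comm u b]
    field_simp
  have e0 : aff (ContinuousLinearEquiv.refl ℝ (E n)) C '' K = (fun x => x + C) '' K := rfl
  have hdet : |((ContinuousLinearEquiv.refl ℝ (E n) : E n ≃L[ℝ] E n) : E n →L[ℝ] E n).det| = 1 := by
    have h1 : (((ContinuousLinearEquiv.refl ℝ (E n) : E n ≃L[ℝ] E n) : E n →L[ℝ] E n) :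
        E n →ₗ[ℝ] E n) = LinearMap.id := rfl
    unfold ContinuousLinearMap.det
    rw [h1, LinearMap.det_id, abs_one]
  have had : ∀ u : E n, ad (ContinuousLinearEquiv.refl ℝ (E n)) u = u := by
    intro u
    apply ext_inner_right ℝ
    intro x
    rw [ad_inner]
    rfl
  have hcb := cb_aff hK (ContinuousLinearEquiv.refl ℝ (E n)) C
  have hvol := vol_aff (ContinuousLinearEquiv.refl ℝ (E n)) C K
  rw [hdet, one_mul] at hvol
  refine ⟨C, d * c, ⟨hcb, hd, ?_, mul_pos hd hc, ?_, ?_⟩, ?_⟩
  · rw [← e0, hvol]; exact hdv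
  · have := mul_lt_mul_of_pos_left hc1 hd
    linarith
  · intro u hu
    have hn0 : 0 < ‖u‖ := norm_pos_iff.2 hu
    set v : E n := ‖u‖⁻¹ • u with hv
    have hvn : ‖v‖ = 1 := by
      rw [hv, norm_smul, norm_inv, norm_norm, inv_mul_cancel₀ hn0.ne']
    have hv2 : u = ‖u‖ • v := by
      rw [hv, smul_smul, mul_inv_cancel₀ hn0.ne', one_smul]
    have hv3 : ad (ContinuousLinearEquiv.refl ℝ (E n)) u = ‖u‖ • v := by
      rw [had]; exact hv2
    obtain ⟨τ, h1, h2⟩ := h v hvn
    have c1 := cap_aff (ContinuousLinearEquiv.refl ℝ (E n)) C K u v hn0 hv3 τ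
    have g1 := GG_aff (ContinuousLinearEquiv.refl ℝ (E n)) C hK.comp u v hn0 hv3 τ
    have s1 := supp_aff hK.comp hne (ContinuousLinearEquiv.refl ℝ (E n)) C u
    rw [e0] at c1 g1 s1
    rw [had] at s1
    refine ⟨‖u‖ * τ + inner ℝ u C, ?_, ?_⟩
    · rw [c1, volume_aff, h1, hdet, ENNReal.ofReal_one, one_mul]
    · have s2 : supp K u = ‖u‖ * supp K v := by
        conv_lhs => rw [hv2]
        exact supp_smul hK.comp hne hn0.le v
      have hb1 := hbC v
      have hb2 : (inner ℝ u C : ℝ) = ‖u‖ * inner ℝ v C := by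
        conv_lhs => rw [hv2]
        rw [real_inner_smul_left]
      rw [g1, s1, s2, hdet, one_mul]
      have h3 : GG K v τ = d * (c * supp K v + inner ℝ b v) - d * τ := by
        rw [← h2]; ring
      rw [h3, hb1, hb2]
      ring
  · intro p q hpq hiK
    -- the translation vector is fixed
    have key : ∀ u : E n, ‖u‖ = 1 → (inner ℝ b (iot p q u) : ℝ) = inner ℝ b u := by
      intro u hu
      obtain ⟨τ, h1, h2⟩ := h u hu
      obtain ⟨τ', h1', h2'⟩ := h (iot p q u) (by rw [iot_norm hpq]; exact hu)
      have m1 := GG_min hK.comp u τ τ' hd.le h1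
      have m2 := GG_min hK.comp (iot p q u) τ' τ hd.le h1'
      rw [GG_iot hpq hiK, GG_iot hpq hiK] at m2
      rw [GG_iot hpq hiK] at h2'
      rw [supp_iot hpq hiK] at h2'
      have h5 : GG K u τ + d * τ = GG K u τ' + d * τ' := le_antisymm m1 m2
      rw [h2, h2'] at h5
      have h6 := mul_left_cancel₀ hd.ne' h5
      linarith
    have key2 : ∀ u : E n, (inner ℝ b (iot p q u) : ℝ) = inner ℝ b u := by
      intro u
      by_cases hu : u = 0
      · subst hu
        have : iot p q (0 : E n) = 0 := (iotL p q).map_zero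
        rw [this]
      · have hn0 : 0 < ‖u‖ := norm_pos_iff.2 hu
        have h1 := key (‖u‖⁻¹ • u) (by rw [norm_smul, norm_inv, norm_norm, inv_mul_cancel₀ hn0.ne'])
        have h2 : iot p q (‖u‖⁻¹ • u) = ‖u‖⁻¹ • iot p q u := (iotL p q).map_smul _ _
        rw [h2, real_inner_smul_right, real_inner_smul_right] at h1
        exact mul_left_cancel₀ (inv_ne_zero hn0.ne') h1
    have h3 : iot p q b = b := by
      apply ext_inner_right ℝ
      intro x
      rw [iot_inner hpq]
      exact key2 x
    have h4 : iot p q C = (-(1 - c)⁻¹) • iot p q b := (iotL p q).map_smul _ _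
    rw [h4, h3]

end Pool.Agent.Helper94.SY
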