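import Pool.Agent.Helper73.SY.Stmts
import Pool.Agent.Helper96.LR.Aff

/-!
# Module IMG of MP_a2630c_SY: linear images of centred solutions
-/

open MeasureTheory Set Metric Real
open scoped RealInnerProductSpace ENNReal
open Pool.Agent.Helper16.Buoy (E cap)
open Pool.Agent.Helper73.HV (supp)
open Pool.Agent.Helper73.LR (CB vol GG aff)
open Pool.Agent.Helper96.LR
open Pool.Agent.Helper73.SY
open Pool.Agent.Helper35.HV (abs_det_pos)

namespace Pool.Agent.Helper94.SY

theorem img : S_img := by
  intro n K δ lam h T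
  have hd := abs_det_pos T
  have e0 : aff T 0 '' K = T '' K := by
    apply image_congr
    intro x _
    exact add_zero (T x)
  have hv := vol_aff T 0 K
  rw [e0] at hv
  refine ⟨?_, mul_pos hd h.dpos, ?_, mul_pos hd h.lpos, mul_lt_mul_of_pos_left h.llt hd, ?_⟩
  · have := cb_aff h.cb T 0
    rwa [e0] at this
  · rw [hv]
    exact mul_lt_mul_of_pos_left h.dlt hd
  · intro u hu
    obtain ⟨τ, h1, h2⟩ := h.eq (ad T u) (ad_ne T hu)
    have hone : ad T u = (1 : ℝ) • ad T u := (one_smul ℝ _).symm
    have c1 := cap_aff T 0 K u (ad T u) one_pos hone τ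
    have g1 := GG_aff T 0 h.cb.comp u (ad T u) one_pos hone τ
    have s1 := supp_aff h.cb.comp (h.cb.int.mono interior_subset) T 0 u
    rw [e0, inner_zero_right, add_zero, one_mul] at c1 g1
    rw [e0, inner_zero_right, add_zero] at s1
    refine ⟨τ, ?_, ?_⟩
    · rw [c1, volume_aff, h1, ← ENNReal.ofReal_mul hd.le]
    · rw [g1, s1, one_mul, mul_assoc, ← mul_add, h2, mul_assoc]

end Pool.Agent.Helper94.SY
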