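import Pool.Agent.Helper73.SY.Stmts

/-!
# Module REN of MP_a2630c_SY: conclusion for bodies of revolution
-/

open MeasureTheory Set Metric Real
open scoped RealInnerProductSpace ENNReal
open Pool.Agent.Helper16.Buoy (E cap IsEllipsoid)
open Pool.Agent.Helper73.HV (supp)
open Pool.Agent.Helper73.LR (CB vol GG aff)
open Pool.Agent.Helper73.SY

namespace Pool.Agent.Helper94.SY

variable {n : ℕ}

/-- the stretching map -/
noncomputable def strL (p r : ℝ) (e : E n) : E n →ₗ[ℝ] E n where
  toFun x := p • x + ((r - p) * inner ℝ e x) • e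
  map_add' x y := by
    rw [inner_add_right]
    module
  map_smul' c x := by
    rw [real_inner_smul_right, RingHom.id_apply]
    module

theorem strL_inner {p r : ℝ} {e : E n} (he : ‖e‖ = 1) (x : E n) :
    (inner ℝ e (strL p r e x) : ℝ) = r * inner ℝ e x := by
  have e1 : (inner ℝ e e : ℝ) = 1 := by rw [real_inner_self_eq_norm_sq, he]; norm_num
  change (inner ℝ e (p • x + ((r - p) * inner ℝ e x) • e) : ℝ) = _
  rw [inner_add_right, real_inner_smul_right, real_inner_smul_right, e1]
  ring

theorem strL_inj {p r : ℝ} {e : E n} (he : ‖e‖ = 1) (hp : p ≠ 0) (hr : r ≠ 0) :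
    Function.Injective (strL p r e) := by
  rw [← LinearMap.ker_eq_bot, LinearMap.ker_eq_bot']
  intro x hx
  have h1 := strL_inner (p := p) (r := r) he x
  rw [hx, inner_zero_right] at h1
  have h2 : (inner ℝ e x : ℝ) = 0 := by
    rcases mul_eq_zero.1 h1.symm with h | h
    · exact absurd h hr
    · exact h
  have h3 : p • x + ((r - p) * inner ℝ e x) • e = 0 := hx
  rw [h2, mul_zero, zero_smul, add_zero] at h3
  exact (smul_eq_zero.1 h3).resolve_left hp

/-- a solid of revolution with quadratic profile is an ellipsoid -/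
theorem ell_of_quad {K : Set (E n)} {e : E n} {c ρ m : ℝ} (he : ‖e‖ = 1) (hρ : 0 < ρ)
    (hm : 0 < m) (hK : ∀ x : E n, x ∈ K ↔
      ‖x - (inner ℝ e x : ℝ) • e‖ ^ 2 ≤ m * (ρ ^ 2 - (inner ℝ e x - c) ^ 2)) :
    IsEllipsoid K := by
  set p : ℝ := Real.sqrt m * ρ with hp
  have hp0 : 0 < p := mul_pos (Real.sqrt_pos.2 hm) hρ
  have hp2 : p ^ 2 = m * ρ ^ 2 := by rw [hp, mul_pow, Real.sq_sqrt hm.le]
  have e1 : (inner ℝ e e : ℝ) = 1 := by rw [real_inner_self_eq_norm_sq, he]; norm_num
  let L : E n ≃ₗ[ℝ] E n :=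
    LinearEquiv.ofInjectiveEndo (strL p ρ e) (strL_inj he hp0.ne' hρ.ne')
  have hL : ∀ x, L x = strL p ρ e x := fun x => rfl
  let T : E n ≃ᵃ[ℝ] E n := L.toAffineEquiv.trans (AffineEquiv.constVAdd ℝ (E n) (c • e))
  have hT : ∀ x, T x = c • e + strL p ρ e x := fun x => rfl
  refine ⟨T, ?_⟩
  have key : ∀ x : E n, T x ∈ K ↔ ‖x‖ ≤ 1 := by
    intro x
    have h1 : (inner ℝ e (T x) : ℝ) = c + ρ * inner ℝ e x := by
      rw [hT, inner_add_right, strL_inner he, real_inner_smul_right, e1, mul_one]
    have h2 : T x - (inner ℝ e (T x) : ℝ) • e = p • (x - (inner ℝ e x : ℝ) • e) := by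
      rw [h1, hT]
      change c • e + (p • x + ((ρ - p) * inner ℝ e x) • e) - _ = _
      module
    have h3 : ‖x - (inner ℝ e x : ℝ) • e‖ ^ 2 = ‖x‖ ^ 2 - (inner ℝ e x) ^ 2 := by
      rw [← real_inner_self_eq_norm_sq, ← real_inner_self_eq_norm_sq, inner_sub_left,
        inner_sub_right, inner_sub_right, real_inner_smul_left, real_inner_smul_left,
        real_inner_smul_right, real_inner_smul_right, e1, real_inner_comm e x]
      ring
    rw [hK, h2, h1, norm_smul, mul_pow, h3, Real.norm_eq_abs, sq_abs, hp2]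
    have h4 : m * ρ ^ 2 * (‖x‖ ^ 2 - (inner ℝ e x) ^ 2) ≤
        m * (ρ ^ 2 - (c + ρ * inner ℝ e x - c) ^ 2) ↔ ‖x‖ ^ 2 ≤ 1 := by
      have h5 : m * (ρ ^ 2 - (c + ρ * inner ℝ e x - c) ^ 2)
          = m * ρ ^ 2 * (1 - (inner ℝ e x) ^ 2) := by ring
      rw [h5, mul_le_mul_iff_right₀ (by positivity)]
      constructor <;> intro h <;> linarith
    rw [h4]
    constructor
    · intro h
      by_contra hh
      nlinarith [not_le.1 hh, norm_nonneg x]
    · intro h
      nlinarith [norm_nonneg x]
  ext y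
  constructor
  · rintro ⟨x, hx, rfl⟩
    rw [mem_closedBall_zero_iff] at hx
    exact (key x).2 hx
  · intro hy
    refine ⟨T.symm y, ?_, T.apply_symm_apply y⟩
    rw [mem_closedBall_zero_iff, ← key, T.apply_symm_apply]
    exact hy

theorem rend : S_rend := by
  intro n K X e f hK hP hMB
  obtain ⟨M, B, hMB⟩ := hMB
  have he := hP.ef.p1
  have hf := hP.ef.q1
  have hef : (inner ℝ e f : ℝ) = 0 := hP.ef.pq
  have e1 : (inner ℝ e e : ℝ) = 1 := by rw [real_inner_self_eq_norm_sq, he]; norm_num
  set b : ℝ := supp K e with hb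
  set a : ℝ := -supp K (-e) with ha
  -- the squared radius is a quadratic polynomial
  obtain ⟨A, hA⟩ : ∃ A : ℝ, ∀ κ, (ss X e f κ) ^ 2 =
      M / 2 * (zz X e f κ) ^ 2 + B * zz X e f κ + A := by
    have hz : Differentiable ℝ (zz X e f) := hP.zC1.differentiable one_ne_zero
    have hs : Differentiable ℝ (ss X e f) := hP.sC1.differentiable one_ne_zero
    have hc := is_const_of_deriv_eq_zero
      (f := fun κ => (ss X e f κ) ^ 2 - (M / 2 * (zz X e f κ) ^ 2 + B * zz X e f κ))
      (by fun_prop) (by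
        intro κ
        have d1 : HasDerivAt (ss X e f) (-κ * deriv (zz X e f) κ) κ := by
          rw [← hP.sd κ]; exact (hs κ).hasDerivAt
        have d2 : HasDerivAt (zz X e f) (deriv (zz X e f) κ) κ := (hz κ).hasDerivAt
        have d3 := ((d1.pow 2).sub (((d2.pow 2).const_mul (M / 2)).add (d2.const_mul B))).deriv
        have d4 : deriv (fun κ => (ss X e f κ) ^ 2 - (M / 2 * (zz X e f κ) ^ 2 + B * zz X e f κ)) κ
            = _ := d3
        rw [d4]
        have h1 := hMB κ
        push_cast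
        linear_combination (deriv (zz X e f) κ) * h1)
    refine ⟨(ss X e f 0) ^ 2 - (M / 2 * (zz X e f 0) ^ 2 + B * zz X e f 0), ?_⟩
    intro κ
    have := hc κ 0
    linarith
  have hab : a < b := (hP.zlo 0).trans (hP.zup 0)
  -- positivity inside
  have hpos : ∀ y, a < y → y < b → 0 < M / 2 * y ^ 2 + B * y + A := by
    intro y h1 h2
    obtain ⟨κ, hκ⟩ := hP.zsurj y h1 h2
    have h3 := hA κ
    rw [hκ] at h3
    rw [← h3]
    have := hP.spos κ
    positivity
  -- points on the profile
  have hin : ∀ y ∈ Ioo a b,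
      (y • e + Real.sqrt (M / 2 * y ^ 2 + B * y + A) • f) ∈ K := by
    intro y hy
    rw [hP.mem]
    left
    obtain ⟨κ, hκ⟩ := hP.zsurj y hy.1 hy.2
    have h0 : (inner ℝ e (y • e + Real.sqrt (M / 2 * y ^ 2 + B * y + A) • f) : ℝ) = y := by
      rw [inner_add_right, real_inner_smul_right, real_inner_smul_right, e1, hef]
      ring
    refine ⟨κ, by rw [h0, hκ], ?_⟩
    rw [h0, add_sub_cancel_left, norm_smul, hf, mul_one, Real.norm_eq_abs,
      abs_of_nonneg (Real.sqrt_nonneg _)]
    have h3 := hA κ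
    rw [hκ] at h3
    rw [← h3, Real.sqrt_sq (hP.spos κ).le]
  have hcl : ∀ y ∈ Icc a b,
      (y • e + Real.sqrt (M / 2 * y ^ 2 + B * y + A) • f) ∈ K ∧
        0 ≤ M / 2 * y ^ 2 + B * y + A := by
    intro y hy
    rw [← closure_Ioo hab.ne] at hy
    constructor
    · have h1 : IsClosed {y : ℝ | (y • e + Real.sqrt (M / 2 * y ^ 2 + B * y + A) • f) ∈ K} :=
        hK.comp.isClosed.preimage (by fun_prop)
      exact h1.closure_subset_iff.2 hin hy
    · have h1 : IsClosed {y : ℝ | 0 ≤ M / 2 * y ^ 2 + B * y + A} :=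
        isClosed_le continuous_const (by fun_prop)
      exact h1.closure_subset_iff.2 (fun y hy => (hpos y hy.1 hy.2).le) hy
  -- the end points are roots
  have hinner : ∀ y : ℝ, ∀ w : ℝ, (inner ℝ e (y • e + w • f) : ℝ) = y := by
    intro y w
    rw [inner_add_right, real_inner_smul_right, real_inner_smul_right, e1, hef]
    ring
  have hfne : f ≠ 0 := by
    intro h0
    rw [h0, norm_zero] at hf
    exact zero_ne_one hf
  have hroot : ∀ y ∈ Icc a b, (∀ κ, zz X e f κ ≠ y) → M / 2 * y ^ 2 + B * y + A = 0 := by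
    intro y hy hκ
    obtain ⟨h1, h2⟩ := hcl y hy
    have hw : Real.sqrt (M / 2 * y ^ 2 + B * y + A) = 0 := by
      rcases (hP.mem _).1 h1 with ⟨κ, h3, -⟩ | h3 | h3
      · rw [hinner] at h3
        exact absurd h3.symm (hκ κ)
      · have h4 : y = b := by
          rw [← hinner y (Real.sqrt (M / 2 * y ^ 2 + B * y + A)), h3, real_inner_smul_right, e1,
            mul_one]
        rw [← hb, ← h4] at h3
        have h5 : Real.sqrt (M / 2 * y ^ 2 + B * y + A) • f = 0 := by
          have := h3
          exact add_eq_left.1 this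
        exact (smul_eq_zero.1 h5).resolve_right hfne
      · have h4 : y = a := by
          rw [← hinner y (Real.sqrt (M / 2 * y ^ 2 + B * y + A)), h3, real_inner_smul_right, e1,
            mul_one]
        rw [← ha, ← h4] at h3
        have h5 : Real.sqrt (M / 2 * y ^ 2 + B * y + A) • f = 0 := by
          have := h3
          exact add_eq_left.1 this
        exact (smul_eq_zero.1 h5).resolve_right hfne
    exact le_antisymm (Real.sqrt_eq_zero'.1 hw) h2
  have hWb := hroot b ⟨hab.le, le_rfl⟩ (fun κ => (hP.zup κ).ne)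
  have hWa := hroot a ⟨le_rfl, hab.le⟩ (fun κ => (hP.zlo κ).ne')
  -- factorisation
  have hfac : ∀ y, M / 2 * y ^ 2 + B * y + A = (-M / 2) * (((b - a) / 2) ^ 2 - (y - (a + b) / 2) ^ 2) := by
    intro y
    have h1 : (b - a) * (M / 2 * (a + b) + B) = 0 := by linear_combination hWb - hWa
    have h2 : M / 2 * (a + b) + B = 0 := by
      rcases mul_eq_zero.1 h1 with h | h
      · exact absurd h (sub_pos.2 hab).ne'
      · exact h
    have hB : B = -(M / 2 * (a + b)) := by linarith
    have hAA : A = M / 2 * (a * b) := by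
      have := hWa
      rw [hB] at this
      linarith
    rw [hB, hAA]
    ring
  have hρ : 0 < (b - a) / 2 := by linarith
  have hm : 0 < -M / 2 := by
    have h1 := hpos ((a + b) / 2) (by linarith) (by linarith)
    rw [hfac, sub_self] at h1
    by_contra hh
    have h2 : -M / 2 ≤ 0 := not_lt.1 hh
    nlinarith [sq_nonneg ((b - a) / 2)]
  apply ell_of_quad (c := (a + b) / 2) he hρ hm
  intro x
  rw [← hfac (inner ℝ e x), hP.mem]
  constructor
  · rintro (⟨κ, h1, h2⟩ | h | h)
    · rw [h1] at h2 ⊢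
      rw [← hA κ]
      exact pow_le_pow_left₀ (norm_nonneg _) h2 2
    · have h1 : (inner ℝ e x : ℝ) = b := by
        rw [h, real_inner_smul_right, e1, mul_one]
      rw [h1, hWb]
      have h2 : x - b • e = 0 := by rw [h, ← hb, sub_self]
      rw [h2, norm_zero]
      norm_num
    · have h1 : (inner ℝ e x : ℝ) = a := by
        rw [h, real_inner_smul_right, e1, mul_one]
      rw [h1, hWa]
      have h2 : x - a • e = 0 := by rw [h, ← ha, sub_self]
      rw [h2, norm_zero]
      norm_num
  · intro h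
    have h0 : 0 ≤ M / 2 * (inner ℝ e x) ^ 2 + B * inner ℝ e x + A :=
      le_trans (by positivity) h
    rw [hfac] at h0
    have h1 : (inner ℝ e x - (a + b) / 2) ^ 2 ≤ ((b - a) / 2) ^ 2 := by
      by_contra hh
      nlinarith [not_le.1 hh]
    have h2 := abs_le_of_sq_le_sq' h1 hρ.le
    rcases lt_or_ge (inner ℝ e x : ℝ) b with hlt | hge
    · rcases lt_or_ge a (inner ℝ e x : ℝ) with hlt' | hge'
      · left
        obtain ⟨κ, hκ⟩ := hP.zsurj _ hlt' hlt
        refine ⟨κ, hκ.symm, ?_⟩
        have h3 := hA κ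
        rw [hκ] at h3
        rw [← h3] at h
        exact (pow_le_pow_iff_left₀ (norm_nonneg _) (hP.spos κ).le two_ne_zero).1 h
      · right; right
        have h3 : (inner ℝ e x : ℝ) = a := le_antisymm hge' (by linarith [h2.1])
        rw [h3, hWa] at h
        have h4 : x - a • e = 0 := by
          rw [← norm_eq_zero]
          exact pow_eq_zero_iff two_ne_zero |>.1 (le_antisymm h (by positivity))
        rw [← ha]
        exact sub_eq_zero.1 h4
    · right; left
      have h3 : (inner ℝ e x : ℝ) = b := le_antisymm (by linarith [h2.2]) hge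
      rw [h3, hWb] at h
      have h4 : x - b • e = 0 := by
        rw [← norm_eq_zero]
        exact pow_eq_zero_iff two_ne_zero |>.1 (le_antisymm h (by positivity))
      rw [← hb]
      exact sub_eq_zero.1 h4

end Pool.Agent.Helper94.SY
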